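import Pool.Agent.Lib.MP_a78b9e_ag.Defs
import Pool.Agent.Lib.MP_a78b9e_ag.Proof

/-!
# Orbifold uniruledness and pseudo-effectivity of `K_X + D`: counterexamples on projective spaces

We disprove the implication: `K_X + D` not pseudo-effective implies that the smooth orbifold pair
`(X, D)` is uniruled (by orbifold rational curves).  The counterexamples are `X = ℙⁿ`, `D = c B`
with `B` any smooth hypersurface of degree `d`, and `c = 1 - 1 / m`, where `m` is rational (and not
an integer) and, for some integer `q ≥ 1`, with `D := d - n - 1 > 0`,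
`q (D + 2) < d < (q + 1) D` and `q X / (X - 2) ≤ m < d / D`, `X := (q + 1) (D + 2) - d`.
For `q = 1` this is: any `n ≥ 2`, any `d ≥ 2 n + 3`, and `2 / (d - 2 n + 2) ≤ c < (n + 1) / d`; for
instance `ℙ²`, a smooth curve `B` of degree `7`, and `c = 2 / 5`, `m = 5 / 3`.

Idea of the proof.  Let `f : ℙ¹ → ℙⁿ` have degree `e` and pass through a very general point `p`.
Derivations `δ_j` of `ℂ` (killing the coefficients of the equation `G` of `B`), with prescribed
values on the coordinates of `p`, applied to the coefficients of `f`, give `n` vectors such that for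
some choice of `n - 1` of them `Δ = det (∂_s f, ∂_t f, δ_j f) ≠ 0`.  This is a form of degree
`(n + 1) e - 2`, and it vanishes to order at least `t_a - 1` at each point `a`, where `t_a` is the
order of contact of `f` with `B`.  Hence `∑ (t_a - 1) ≤ (n + 1) e - 2` while `∑ t_a = d e`.  An
orbifold structure `D_C` making `f` an orbifold morphism has coefficient at least `1 - t_a / m` at
`a`, which is at least `(1 - q / m) (q + 1 - t_a)` for integers `t_a` since `q < m < q + 1`.
Summing, `deg D_C ≥ (1 - q / m) ((q + 1) (D + 2) - d) ≥ 2`.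
-/

namespace Pool.Agent.Results.MP_a78b9e_ag.NotUniruled

open Pool.Agent.Lib.MP_a78b9e_ag

/-- Let `q ≥ 1`, `d = n + 1 + D` and `q (D + 2) < d < (q + 1) D` (for `q = 1`: any `n ≥ 2` and
`d ≥ 2 n + 3`).  Put `X = (q + 1) (D + 2) - d`.  Then `q X / (X - 2) < d / D`, and for all
rational multiplicities `m` with `q X / (X - 2) ≤ m < d / D` (so `q < m < q + 1`): there are smooth
hypersurfaces `B ⊂ ℙⁿ` of degree `d`, and for each of them, with `c = 1 - 1 / m`, `K + c B` is not
pseudo-effective, `(ℙⁿ, c B)` is not uniruled, and in fact all points lying on orbifold rational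
curves are contained in a countable union of hypersurfaces. -/
theorem result (q n D d : ℕ) (hq : 1 ≤ q) (hd : d = n + 1 + D) (h1 : q * (D + 2) < d)
    (h2 : d < (q + 1) * D) :
    ((q : ℚ) * ((q + 1) * (D + 2) - d) / ((q + 1) * (D + 2) - d - 2) < d / D) ∧
    ∀ m : ℚ, q * ((q + 1) * (D + 2) - d) / ((q + 1) * (D + 2) - d - 2) ≤ m → m < d / D →
      (∃ P : OrbifoldPair n, P.IsSingle d (1 - 1 / m)) ∧
      ∀ P : OrbifoldPair n, P.IsSingle d (1 - 1 / m) →
        ¬ P.IsPseudoEffective ∧ ¬ P.IsUniruled ∧
        ∃ Z : ℕ → MvPolynomial (Fin (n + 1)) ℂ,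
          (∀ k, Z k ≠ 0 ∧ ∃ e, (Z k).IsHomogeneous e) ∧
          ∀ x : PSpace n, P.HasOrbifoldRationalCurveThrough x → ∃ k, VanishesAt (Z k) x :=
  main q n D d hq hd h1 h2

end Pool.Agent.Results.MP_a78b9e_ag.NotUniruled
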